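import Pool.Agent.MP_e17fb9_al.H47.Main

open Pool.Agent.MP_e17fb9_al.H47

theorem Pool.Agent.Results.MP_e17fb9_al.Dichotomy.result (Y : Type) [Group Y] [Finite Y]
    [Nontrivial Y] :
    List.TFAE [∃ O : Subgroup Y, O.Normal ∧ Group.IsNilpotent O ∧ Odd (Nat.card O) ∧
        ∃ k : ℕ, O.index = 2 ^ k,
      ∃ φ : GY Y →* Multiplicative ℤ,
        (∀ (i : Y) (g : GY Y), g.val = gen i → φ g = Multiplicative.ofAdd 1) ∧
        ∀ H : Subgroup (GY Y), H ≤ φ.ker → H.FG → Finite H,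
      ∀ f : FreeGroup (Fin 2) →* GY Y, ¬Function.Injective f] :=
  main Y
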